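import Mathlib

namespace Pool.Agent.Results.MP_294c13_lc.Tower

open Set Filter
open scoped Cardinal

/-- `g` avoids middles in `P` -/
def Avoids (g : ℕ → ℕ) (P : Set (ℕ → ℕ)) : Prop :=
  (∀ f ∈ P, ¬ (g ≤ᶠ[atTop] f)) ∧ ∀ f ∈ P, ∀ h ∈ P,
    {n : ℕ | f n < g n ∧ g n ≤ h n}.Finite ∨ {n : ℕ | h n < g n ∧ g n ≤ f n}.Finite

def Dominating (D : Set (ℕ → ℕ)) : Prop := ∀ g : ℕ → ℕ, ∃ f ∈ D, g ≤ᶠ[atTop] f

def Unbounded (B : Set (ℕ → ℕ)) : Prop := ¬ ∃ f : ℕ → ℕ, ∀ g ∈ B, g ≤ᶠ[atTop] f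

/-- add(X, D) -/
noncomputable def addXD : Cardinal :=
  sInf {c | ∃ F : Set (Set (ℕ → ℕ)), Dominating (⋃₀ F) ∧ (∀ P ∈ F, ∃ g, Avoids g P) ∧ #F = c}

/-- the bounding number -/
noncomputable def bNum : Cardinal := sInf {c | ∃ B, Unbounded B ∧ #B = c}

/-- cov(M) -/
noncomputable def covM : Cardinal :=
  sInf {c | ∃ C : Set (Set (ℕ → ℕ)), (∀ M ∈ C, IsMeagre M) ∧ ⋃₀ C = univ ∧ #C = c}

/-- `T` is a family of infinite sets, linearly ordered by almost inclusion, that generates an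
ultrafilter modulo finite sets, and any `κ` or fewer of its members have an infinite
pseudo-intersection -/
def UltraChain (κ : Cardinal) (T : Set (Set ℕ)) : Prop :=
  (∀ s ∈ T, s.Infinite) ∧ (∀ s ∈ T, ∀ t ∈ T, (s \ t).Finite ∨ (t \ s).Finite) ∧
  (∀ A : Set ℕ, ∃ s ∈ T, (s \ A).Finite ∨ (s ∩ A).Finite) ∧
  ∀ S ⊆ T, #S ≤ κ → ∃ A : Set ℕ, A.Infinite ∧ ∀ s ∈ S, (A \ s).Finite

def up (g : ℕ → ℕ) (n : ℕ) : ℕ := (Finset.range (n + 1)).sup g

theorem le_up (g : ℕ → ℕ) {m n : ℕ} (h : m ≤ n) : g m ≤ up g n :=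
  Finset.le_sup (f := g) (Finset.mem_range.2 (by omega))

theorem nyikos {B : Set (ℕ → ℕ)} (hB : Unbounded B) {T : Set (Set ℕ)} (hT : UltraChain #B T)
    (f : ℕ → ℕ) : ∃ g ∈ B, ∃ s ∈ T, (s \ {n | f n < up g n}).Finite := by
  by_contra hn
  push Not at hn
  have h1 : ∀ g : B, ∃ s ∈ T, (s ∩ {n | f n < up g n}).Finite := fun g => by
    obtain ⟨s, hs, h | h⟩ := hT.2.2.1 {n | f n < up g n}
    · exact absurd h (hn g g.2 s hs)
    · exact ⟨s, hs, h⟩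
  choose s hs hsf using h1
  obtain ⟨A, hA, hAs⟩ := hT.2.2.2 (range s) (by rintro _ ⟨g, rfl⟩; exact hs g)
    Cardinal.mk_range_le
  choose nx hnx hlt using hA.exists_gt
  refine hB ⟨fun n => f (nx n), fun g hg => ?_⟩
  obtain ⟨N, hN⟩ := ((hAs _ ⟨⟨g, hg⟩, rfl⟩).union (hsf ⟨g, hg⟩)).bddAbove
  filter_upwards [eventually_ge_atTop N] with n hn'
  by_contra hc
  have h2 : nx n ≤ N := by
    apply hN
    by_cases h : nx n ∈ s ⟨g, hg⟩
    · exact Or.inr ⟨h, lt_of_lt_of_le (not_le.1 hc) (le_up g (hlt n).le)⟩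
    · exact Or.inl ⟨hnx n, h⟩
  have := hlt n
  omega

theorem main {T : Set (Set ℕ)} (hT : UltraChain bNum T) : addXD ≤ bNum := by
  classical
  have hne : {c | ∃ B, Unbounded B ∧ #B = c}.Nonempty := by
    refine ⟨_, univ, ?_, rfl⟩
    rintro ⟨f, hf⟩
    obtain ⟨n, hn⟩ := (hf (fun n => f n + 1) trivial).exists
    simp at hn
  obtain ⟨B, hB, hc⟩ := csInf_mem hne
  have hc' : #B = bNum := hc
  rw [← hc'] at hT ⊢
  let P : B → Set (ℕ → ℕ) := fun g => {h | ∃ s ∈ T, (s \ {n | h n < up g n}).Finite ∧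
    {n | h n < up g n} ⊆ s}
  refine (csInf_le' (show #(range P) ∈ {c | ∃ F : Set (Set (ℕ → ℕ)), Dominating (⋃₀ F) ∧
    (∀ P ∈ F, ∃ g, Avoids g P) ∧ #F = c} from ⟨range P, ?_, ?_, rfl⟩)).trans Cardinal.mk_range_le
  · intro f
    obtain ⟨g, hg, s, hs, hf⟩ := nyikos hB hT f
    refine ⟨fun n => if n ∈ s then f n else f n + up g n, ⟨P ⟨g, hg⟩, ⟨_, rfl⟩, s, hs,
      hf.subset ?_, ?_⟩, Eventually.of_forall fun n => ?_⟩
    · rintro n ⟨h1, h2⟩
      exact ⟨h1, by simpa [h1] using h2⟩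
    · intro n hn
      by_contra h1
      simp [h1] at hn
    · dsimp only
      split_ifs <;> omega
  · rintro _ ⟨g, rfl⟩
    refine ⟨up g, ?_, ?_⟩
    · rintro f ⟨s, hs, h1, -⟩ hle
      have h2 : {n | f n < up g n}.Finite := by
        rw [← Nat.cofinite_eq_atTop] at hle
        exact (eventually_cofinite.1 hle).subset fun n hn => not_le.2 hn
      exact hT.1 s hs ((h1.union h2).subset fun n hn => by
        by_cases h : f n < up g n
        · exact Or.inr h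
        · exact Or.inl ⟨hn, h⟩)
    · have key : ∀ (f h : ℕ → ℕ) (s t : Set ℕ), {n | f n < up g n} ⊆ s →
          (t \ {n | h n < up g n}).Finite → (s \ t).Finite →
          {n : ℕ | f n < up g n ∧ up g n ≤ h n}.Finite := by
        intro f h s t h1 h2 h3
        refine (h2.union h3).subset fun n hn => ?_
        by_cases ht : n ∈ t
        · exact Or.inl ⟨ht, not_lt.2 hn.2⟩
        · exact Or.inr ⟨h1 hn.1, ht⟩
      rintro f ⟨s, hs, f1, f2⟩ h ⟨t, ht, h1, h2⟩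
      rcases hT.2.1 s hs t ht with c | c
      · exact Or.inl (key f h s t f2 h1 c)
      · exact Or.inr (key h f t s h2 f1 c)

theorem result (h : ∃ T, UltraChain bNum T) :
    addXD ≤ bNum ∧ (bNum < covM → ¬ covM ≤ addXD) := by
  obtain ⟨T, hT⟩ := h
  exact ⟨main hT, fun h1 h2 => absurd (h2.trans (main hT)) (not_le.2 h1)⟩

end Pool.Agent.Results.MP_294c13_lc.Tower
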